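import Mathlib

/-!
Number of cycles of a permutation (fixed points count), and its behaviour under multiplication by transpositions.
-/

namespace H41Cyc

open Equiv

variable {X : Type*}

/-- number of cycles of a permutation, fixed points included -/
noncomputable def nc (f : Perm X) : ℕ := Nat.card (Quotient (Perm.SameCycle.setoid f))

theorem mk_eq {f : Perm X} {a b : X} :
    (Quotient.mk (Perm.SameCycle.setoid f) a = Quotient.mk (Perm.SameCycle.setoid f) b) ↔ f.SameCycle a b := by
  rw [Quotient.eq]
  rfl

theorem sc_of_step {g : Perm X} (r : Setoid X) (hs : ∀ z, r z (g z)) {a b : X}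
    (h : g.SameCycle a b) : r a b := by
  obtain ⟨i, rfl⟩ := h
  induction i using Int.induction_on with
  | zero => exact r.refl _
  | succ n ih =>
    refine r.trans ih ?_
    have := hs ((g ^ (n : ℤ)) a)
    rwa [← Perm.mul_apply, ← zpow_one_add, add_comm] at this
  | pred n ih =>
    refine r.trans ih ?_
    have := hs ((g ^ (-(n : ℤ) - 1)) a)
    rw [← Perm.mul_apply, ← zpow_one_add] at this
    have e : (1 : ℤ) + (-(n:ℤ) - 1) = -n := by ring
    rw [e] at this
    exact r.symm this

/-- multiplying by a transposition loses at most one cycle -/
theorem nc_le_mul_swap [Finite X] [DecidableEq X] (f : Perm X) (x y : X) : nc f ≤ nc (f * swap x y) + 1 := by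
  classical
  -- the relation: same cycle of f, or both in the cycles of x and y
  let c : X → Prop := fun z => f.SameCycle x z ∨ f.SameCycle y z
  let r : Setoid X :=
    { r := fun a b => f.SameCycle a b ∨ (c a ∧ c b)
      iseqv :=
        { refl := fun a => Or.inl (Perm.SameCycle.refl _ _)
          symm := by
            rintro a b (h | ⟨h, h'⟩)
            · exact Or.inl h.symm
            · exact Or.inr ⟨h', h⟩
          trans := by
            rintro a b d (h | ⟨h, h'⟩) (k | ⟨k, k'⟩)
            · exact Or.inl (h.trans k)
            · refine Or.inr ⟨?_, k'⟩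
              rcases k with k | k
              · exact Or.inl (k.trans h.symm)
              · exact Or.inr (k.trans h.symm)
            · refine Or.inr ⟨h, ?_⟩
              rcases h' with h' | h'
              · exact Or.inl (h'.trans k)
              · exact Or.inr (h'.trans k)
            · exact Or.inr ⟨h, k'⟩ } }
  have hstep : ∀ z, r z ((f * swap x y) z) := by
    intro z
    show f.SameCycle z _ ∨ _
    rw [Perm.mul_apply]
    by_cases hx : z = x
    · subst hx
      right
      rw [swap_apply_left]
      refine ⟨Or.inl (Perm.SameCycle.refl _ _), Or.inr ⟨1, by simp⟩⟩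
    by_cases hy : z = y
    · subst hy
      right
      rw [swap_apply_right]
      refine ⟨Or.inr (Perm.SameCycle.refl _ _), Or.inl ⟨1, by simp⟩⟩
    · rw [swap_apply_of_ne_of_ne hx hy]
      exact Or.inl ⟨1, by simp⟩
  -- g-classes map onto r-classes
  have h1 : Nat.card (Quotient r) ≤ nc (f * swap x y) := by
    refine Nat.card_le_card_of_surjective
      (Quotient.lift (fun a => Quotient.mk r a) ?_ : Quotient (Perm.SameCycle.setoid (f * swap x y)) → Quotient r) ?_
    · intro a b hab
      exact Quotient.sound (sc_of_step r hstep hab)
    · intro q
      obtain ⟨a, rfl⟩ := Quotient.exists_rep q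
      exact ⟨Quotient.mk _ a, rfl⟩
  -- f-classes without the class of x inject into r-classes
  have h2 : nc f ≤ Nat.card (Quotient r) + 1 := by
    rw [nc]
    have : Nat.card (Option (Quotient r)) = Nat.card (Quotient r) + 1 := Finite.card_option
    rw [← this]
    let φ : Quotient (Perm.SameCycle.setoid f) → Option (Quotient r) :=
      fun q => if q = Quotient.mk _ x then none else some (Quotient.mk r q.out)
    refine Nat.card_le_card_of_injective φ ?_
    intro q q' h
    simp only [φ] at h
    by_cases hq : q = Quotient.mk _ x
    · rw [if_pos hq] at h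
      by_cases hq' : q' = Quotient.mk _ x
      · rw [hq, hq']
      · rw [if_neg hq'] at h
        exact absurd h (by simp)
    · rw [if_neg hq] at h
      by_cases hq' : q' = Quotient.mk _ x
      · rw [if_pos hq'] at h
        exact absurd h (by simp)
      · rw [if_neg hq'] at h
        have h3 := Quotient.exact (Option.some_injective _ h)
        have hx : ∀ q : Quotient (Perm.SameCycle.setoid f), q ≠ Quotient.mk _ x → ¬ f.SameCycle x q.out := by
          intro q hq hs
          apply hq
          rw [← q.out_eq]
          exact (mk_eq.mpr hs).symm
        have hfin : f.SameCycle q.out q'.out := by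
          rcases h3 with h3 | ⟨h3, h4⟩
          · exact h3
          · rcases h3 with h3 | h3
            · exact absurd h3 (hx q hq)
            · rcases h4 with h4 | h4
              · exact absurd h4 (hx q' hq')
              · exact h3.symm.trans h4
        rw [← q.out_eq, ← q'.out_eq]
        exact mk_eq.mpr hfin
  omega

/-- splitting off a point -/
theorem nc_add_one_le_mul_swap [Finite X] [DecidableEq X] (f : Perm X) {x y : X} (h : f x = y) (hne : x ≠ y) :
    nc f + 1 ≤ nc (f * swap x y) := by
  classical
  have hxy : f.SameCycle x y := ⟨1, by simpa using h⟩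
  have hstep : ∀ z, (Perm.SameCycle.setoid f) z ((f * swap x y) z) := by
    intro z
    show f.SameCycle z _
    rw [Perm.mul_apply]
    by_cases hx : z = x
    · subst hx
      rw [swap_apply_left]
      exact hxy.trans ⟨1, by simp⟩
    by_cases hy : z = y
    · subst hy
      rw [swap_apply_right]
      exact hxy.symm.trans ⟨1, by simp⟩
    · rw [swap_apply_of_ne_of_ne hx hy]
      exact ⟨1, by simp⟩
  have hfix : (f * swap x y) y = y := by
    rw [Perm.mul_apply, swap_apply_right, h]
  let ψ : Quotient (Perm.SameCycle.setoid (f * swap x y)) → Quotient (Perm.SameCycle.setoid f) :=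
    Quotient.lift (fun a => Quotient.mk (Perm.SameCycle.setoid f) a) (by
      intro a b hab
      exact Quotient.sound (sc_of_step _ hstep hab))
  have hsurj : Function.Surjective ψ := by
    intro q
    obtain ⟨a, rfl⟩ := Quotient.exists_rep q
    exact ⟨Quotient.mk _ a, rfl⟩
  have hle : nc f ≤ nc (f * swap x y) := Nat.card_le_card_of_surjective ψ hsurj
  have hne' : nc f ≠ nc (f * swap x y) := by
    intro he
    have hinj : Function.Injective ψ := by
      have := (Function.Surjective.bijective_of_nat_card_le hsurj (le_of_eq he.symm)).1
      exact this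
    have e1 : ψ (Quotient.mk _ x) = ψ (Quotient.mk _ y) := by
      show Quotient.mk (Perm.SameCycle.setoid f) x = Quotient.mk (Perm.SameCycle.setoid f) y
      exact mk_eq.mpr hxy
    have e2 := mk_eq.mp (hinj e1)
    have e3 : x = y := by
      obtain ⟨i, hi⟩ := e2.symm
      rw [← hi]
      have : Function.IsFixedPt (⇑(f * swap x y)) y := hfix
      exact (Perm.zpow_apply_eq_self_of_apply_eq_self this i)
    exact hne e3
  omega

end H41Cyc
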